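import Pool.Agent.Y486.L1Exp

set_option autoImplicit false

/-!
Explicit form of the answer to Q2 (and an upper bound for Q1): the `L₁` distortion of the space of
uniform `s`-point measures on the grid `{1,…,Δ}^d`, with the Wasserstein-1 distance for the `ℓ₁` or
the `ℓ₂` metric of the grid, is at most `5 s³ 16^s (s!)² = exp (2 s log s + O(s))`, for all `Δ`, `d`.
-/

open MeasureTheory Finset
open scoped ENNReal

namespace Pool.Agent.Results.MP_12e089_an.ExplicitBound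

/-- The grid `{1,…,Δ}^d`, with the coordinates shifted to `{0,…,Δ-1}`. -/
abbrev Grid (Δ d : ℕ) := Fin d → Fin Δ

/-- The `ℓ₁` metric of the grid. -/
def dist1 {Δ d : ℕ} (x y : Grid Δ d) : ℝ := ∑ i, |((x i : ℕ) : ℝ) - ((y i : ℕ) : ℝ)|

/-- The `ℓ₂` metric of the grid. -/
noncomputable def dist2 {Δ d : ℕ} (x y : Grid Δ d) : ℝ :=
  Real.sqrt (∑ i, (((x i : ℕ) : ℝ) - ((y i : ℕ) : ℝ)) ^ 2)

/-- `π` is a coupling of the measures `μ` and `ν` on the finite set `M`. -/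
def IsCoupling {M : Type} [Fintype M] (μ ν : M → ℝ) (π : M → M → ℝ) : Prop :=
  (∀ x y, 0 ≤ π x y) ∧ (∀ x, ∑ y, π x y = μ x) ∧ ∀ y, ∑ x, π x y = ν y

/-- The Wasserstein-1 distance of `μ` and `ν` for the ground distance `ρ`. -/
noncomputable def W1 {M : Type} [Fintype M] (ρ : M → M → ℝ) (μ ν : M → ℝ) : ℝ :=
  sInf {t : ℝ | ∃ π : M → M → ℝ, IsCoupling μ ν π ∧ t = ∑ x, ∑ y, π x y * ρ x y}

/-- The uniform probability measure on the points of `S`. -/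
noncomputable def unif {M : Type} [DecidableEq M] (S : Finset M) : M → ℝ :=
  fun x => if x ∈ S then 1 / (S.card : ℝ) else 0

/-- The index set of `Y(Δ,d,s)`: subsets of the grid with exactly `s` points. -/
abbrev Y (Δ d s : ℕ) := {S : Finset (Grid Δ d) // S.card = s}

/-- The distance of `Y(Δ,d,s)`: the Wasserstein-1 distance of the uniform measures. -/
noncomputable def distY {Δ d s : ℕ} (ρ : Grid Δ d → Grid Δ d → ℝ) (S T : Y Δ d s) : ℝ :=
  W1 ρ (unif S.1) (unif T.1)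

/-- The space with the distance function `δ` embeds into `L₁([0,1])` with distortion `D`. -/
def EmbedsL1 {X : Type} (δ : X → X → ℝ) (D : ℝ) : Prop :=
  ∃ (f : X → Lp ℝ 1 (volume.restrict (Set.Icc (0 : ℝ) 1))) (r : ℝ), 0 < r ∧
    ∀ x y, r * δ x y ≤ ‖f x - f y‖ ∧ ‖f x - f y‖ ≤ D * r * δ x y

/-- The `L₁` distortion `c₁`: the infimum of the `D ≥ 1` for which there is an embedding with
distortion `D` (and `∞` if there is none). -/
noncomputable def c1 {X : Type} (δ : X → X → ℝ) : ℝ≥0∞ :=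
  ⨅ (D : ℝ) (_ : 1 ≤ D ∧ EmbedsL1 δ D), ENNReal.ofReal D

/-- **Main theorem.**  `c₁(Y(Δ,d,s)) ≤ 5 s³ 16^s (s!)²` for all `Δ ≥ 2`, `d ≥ 1` and
`1 ≤ s ≤ Δ^d`, both for the `ℓ₁` and for the `ℓ₂` metric on the grid. -/
theorem result (Δ d s : ℕ) (_hΔ : 2 ≤ Δ) (_hd : 1 ≤ d) (hs : 1 ≤ s) (_hs' : s ≤ Δ ^ d) :
    c1 (distY (Δ := Δ) (d := d) (s := s) dist1) ≤
      ENNReal.ofReal (5 * (s : ℝ) ^ 3 * 16 ^ s * (s.factorial : ℝ) ^ 2) ∧
    c1 (distY (Δ := Δ) (d := d) (s := s) dist2) ≤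
      ENNReal.ofReal (5 * (s : ℝ) ^ 3 * 16 ^ s * (s.factorial : ℝ) ^ 2) := by
  obtain ⟨h1, h2⟩ := Pool.Agent.Y486.L1Exp.final' s Δ d hs
  have hle := Pool.Agent.Y486.L1Exp.const_le s hs
  have hone : 1 ≤ (1 + Pool.Agent.Y486.L1Exp.lipc s) * Pool.Agent.Y486.L1Exp.lowc s *
      (1 / (4 / 9)) := by
    have e1 := Pool.Agent.Y486.L1Exp.lipc_nonneg s
    have e2 : (1 : ℝ) ≤ Pool.Agent.Y486.L1Exp.lowc s := by
      unfold Pool.Agent.Y486.L1Exp.lowc
      have h3 : (1 : ℝ) ≤ (s.factorial : ℝ) := by exact_mod_cast s.factorial_pos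
      have h4 : (1 : ℝ) ≤ 16 ^ s := one_le_pow₀ (by norm_num)
      calc (1 : ℝ) = 1 * 1 ^ 2 := by norm_num
        _ ≤ _ := mul_le_mul h4 (pow_le_pow_left₀ zero_le_one h3 2) (by norm_num) (by positivity)
    have e3 : 1 * 1 ≤ (1 + Pool.Agent.Y486.L1Exp.lipc s) * Pool.Agent.Y486.L1Exp.lowc s :=
      mul_le_mul (by linarith) e2 zero_le_one (by linarith)
    nlinarith
  exact ⟨(iInf₂_le _ ⟨hone, h1⟩).trans (ENNReal.ofReal_le_ofReal hle),
    (iInf₂_le _ ⟨hone, h2⟩).trans (ENNReal.ofReal_le_ofReal hle)⟩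

end Pool.Agent.Results.MP_12e089_an.ExplicitBound
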